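import Mathlib

set_option autoImplicit false

/-!
# The variable Szeged index and the variable Wiener index can agree at two different exponents

For a finite connected graph `G`, `W^α(G)` is the sum of `d(x,y)^α` over the unordered pairs of
distinct vertices and `Sz^α(G)` is the sum of `(n_u(e) n_v(e))^α` over the edges `e = uv`.  We show
that there is a connected, non-complete graph `G` with two different real numbers `α ≠ β` such that
`Sz^α(G) = W^α(G)` and `Sz^β(G) = W^β(G)`.

The graph is a path with `L` vertices one end of which is joined to all the vertices of a cocktail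
party graph with `2 K` vertices, where `K = 2 ^ 37` and `L = 2 ^ 24`.
-/

namespace Pool.Agent.N218.DD6DDE.TwoZeros

open Finset

section Defs

variable {V : Type} [Fintype V]

open Classical in
/-- The number of vertices which are closer to `u` than to `v`. -/
noncomputable def closer (G : SimpleGraph V) (u v : V) : ℕ :=
  (univ.filter fun w => G.dist w u < G.dist w v).card

open Classical in
/-- The variable Szeged index: the sum of `(n_u n_v)^α` over all edges `uv`.  It is written as one
half of the sum over all ordered pairs of adjacent vertices. -/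
noncomputable def szeged (G : SimpleGraph V) (α : ℝ) : ℝ :=
  (1 / 2) * ∑ u : V, ∑ v : V,
    if G.Adj u v then ((closer G u v * closer G v u : ℕ) : ℝ) ^ α else 0

open Classical in
/-- The variable Wiener index: the sum of `d(x,y)^α` over all unordered pairs of distinct
vertices.  It is written as one half of the sum over all ordered pairs of distinct vertices. -/
noncomputable def wiener (G : SimpleGraph V) (α : ℝ) : ℝ :=
  (1 / 2) * ∑ x : V, ∑ y : V, if x ≠ y then (G.dist x y : ℝ) ^ α else 0

end Defs

/-! ### Recognising the distance of a graph -/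

theorem dist_eq {V : Type} (G : SimpleGraph V) (D : V → V → ℕ) (h0 : ∀ x y, D x y = 0 ↔ x = y)
    (h1 : ∀ x y z, G.Adj y z → D x y ≤ D x z + 1)
    (h2 : ∀ x y, x ≠ y → ∃ z, G.Adj y z ∧ D x z + 1 = D x y) :
    (∀ x y, G.Reachable x y) ∧ ∀ x y, G.dist x y = D x y := by
  have key : ∀ n : ℕ, ∀ x y, D x y = n → ∃ p : G.Walk y x, p.length = n := by
    intro n
    induction n with
    | zero =>
      intro x y h
      obtain rfl := (h0 x y).1 h
      exact ⟨SimpleGraph.Walk.nil, rfl⟩
    | succ n ih =>
      intro x y h
      have hne : x ≠ y := by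
        intro hxy
        rw [(h0 x y).2 hxy] at h
        omega
      obtain ⟨z, hz, hz'⟩ := h2 x y hne
      obtain ⟨p, hp⟩ := ih x z (by omega)
      exact ⟨SimpleGraph.Walk.cons hz p, by rw [SimpleGraph.Walk.length_cons, hp]⟩
  have low : ∀ x y (p : G.Walk y x), D x y ≤ p.length := by
    intro x y p
    induction p with
    | nil => rw [(h0 _ _).2 rfl]; exact Nat.zero_le _
    | cons h p ih =>
      rw [SimpleGraph.Walk.length_cons]
      exact (h1 _ _ _ h).trans (Nat.add_le_add_right ih 1)
  have hr : ∀ x y, G.Reachable x y := by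
    intro x y
    obtain ⟨p, -⟩ := key _ x y rfl
    exact ⟨p.reverse⟩
  refine ⟨hr, fun x y => ?_⟩
  apply le_antisymm
  · obtain ⟨p, hp⟩ := key _ x y rfl
    rw [SimpleGraph.dist_comm, ← hp]
    exact SimpleGraph.dist_le p
  · obtain ⟨p, hp⟩ := (hr y x).exists_walk_length_eq_dist
    rw [SimpleGraph.dist_comm, ← hp]
    exact low x y p

/-! ### The graph -/

section Graph

variable (K L : ℕ)

/-- The vertices: `2 K` vertices of a cocktail party graph and `L` vertices of a path. -/
abbrev Vert : Type := (Fin K × Bool) ⊕ Fin L

variable {K L}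

/-- The distance function of the graph. -/
def D : Vert K L → Vert K L → ℕ
  | Sum.inl a, Sum.inl b => if a = b then 0 else if a.1 = b.1 then 2 else 1
  | Sum.inl _, Sum.inr t => t.val + 1
  | Sum.inr s, Sum.inl _ => s.val + 1
  | Sum.inr s, Sum.inr t => (s.val - t.val) + (t.val - s.val)

theorem D_comm (x y : Vert K L) : D x y = D y x := by
  rcases x with a | s <;> rcases y with b | t
  · simp only [D, eq_comm (a := a) (b := b), eq_comm (a := a.1) (b := b.1)]
  · rfl
  · rfl
  · simp only [D]; omega

theorem D_zero (x y : Vert K L) : D x y = 0 ↔ x = y := by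
  rcases x with a | s <;> rcases y with b | t
  · simp only [D, Sum.inl.injEq]
    by_cases h : a = b
    · simp [h]
    · by_cases h' : a.1 = b.1 <;> simp [h, h']
  · simp [D]
  · simp [D]
  · simp only [D, Sum.inr.injEq, Fin.ext_iff]; omega

variable (K L)

/-- The graph: two vertices are adjacent if their distance is `1`. -/
def G : SimpleGraph (Vert K L) where
  Adj x y := D x y = 1
  symm := ⟨by
    intro x y h
    show D y x = 1
    rw [D_comm]; exact h⟩
  loopless := ⟨by
    intro x h
    rw [(D_zero x x).2 rfl] at h
    exact absurd h (by norm_num)⟩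

variable {K L}

theorem adj_iff (x y : Vert K L) : (G K L).Adj x y ↔ D x y = 1 := Iff.rfl

theorem D_lip (x y z : Vert K L) (h : (G K L).Adj y z) : D x y ≤ D x z + 1 := by
  rw [adj_iff] at h
  rcases x with a | s <;> rcases y with b | t <;> rcases z with c | r <;> simp only [D] at *
  · split_ifs at * <;> first | omega | (exfalso; simp_all)
  · split_ifs at * <;> omega
  · split_ifs at * <;> omega
  · omega
  · omega
  · omega
  · omega
  · omega

theorem D_step (hL : 0 < L) (x y : Vert K L) (hne : x ≠ y) :
    ∃ z, (G K L).Adj y z ∧ D x z + 1 = D x y := by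
  simp only [adj_iff]
  rcases x with a | s <;> rcases y with b | t
  · by_cases h : a.1 = b.1
    · refine ⟨Sum.inr ⟨0, hL⟩, rfl, ?_⟩
      have h' : a ≠ b := fun h => hne (by rw [h])
      simp [D, h', h]
    · have h' : a ≠ b := fun h' => h (by rw [h'])
      refine ⟨Sum.inl a, ?_, ?_⟩
      · simp [D, Ne.symm h', Ne.symm h]
      · simp [D, h', h]
  · by_cases h : t.val = 0
    · refine ⟨Sum.inl a, ?_, ?_⟩
      · simp [D, h]
      · simp [D, h]
    · refine ⟨Sum.inr ⟨t.val - 1, by omega⟩, ?_, ?_⟩
      · simp only [D]; omega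
      · simp only [D]; omega
  · by_cases h : s.val = 0
    · refine ⟨Sum.inr s, ?_, ?_⟩
      · simp [D, h]
      · simp [D, h]
    · refine ⟨Sum.inr ⟨0, hL⟩, ?_, ?_⟩
      · simp [D]
      · simp [D]
  · have h : s.val ≠ t.val := fun h => hne (by rw [Fin.ext h])
    rcases lt_or_gt_of_ne h with h | h
    · refine ⟨Sum.inr ⟨t.val - 1, by omega⟩, ?_, ?_⟩
      · simp only [D]; omega
      · simp only [D]; omega
    · refine ⟨Sum.inr ⟨t.val + 1, by omega⟩, ?_, ?_⟩
      · simp only [D]; omega
      · simp only [D]; omega

theorem G_dist (hL : 0 < L) (x y : Vert K L) : (G K L).dist x y = D x y :=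
  (dist_eq (G K L) D D_zero D_lip (D_step hL)).2 x y

theorem G_connected (hL : 0 < L) : (G K L).Connected := by
  have h := (dist_eq (G K L) D D_zero D_lip (D_step hL)).1
  have : Nonempty (Vert K L) := ⟨Sum.inr ⟨0, hL⟩⟩
  exact ⟨h⟩

/-! ### The numbers of closer vertices -/

theorem card_V : Fintype.card (Vert K L) = 2 * K + L := by
  simp [Vert, mul_comm]

theorem closer_le (u v : Vert K L) : closer (G K L) u v ≤ 2 * K + L := by
  unfold closer
  refine (Finset.card_le_univ _).trans ?_
  rw [card_V]

theorem closer_pos (hL : 0 < L) (u v : Vert K L) (h : (G K L).Adj u v) :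
    0 < closer (G K L) u v := by
  unfold closer
  apply Finset.card_pos.2
  refine ⟨u, ?_⟩
  simp only [mem_filter, mem_univ, true_and]
  rw [SimpleGraph.dist_self, G_dist hL, (adj_iff u v).1 h]
  exact Nat.zero_lt_one

theorem closer_cluster (hL : 0 < L) (a b : Fin K × Bool) (h : a.1 ≠ b.1) :
    closer (G K L) (Sum.inl a) (Sum.inl b) = 2 := by
  unfold closer
  have hne : a ≠ b := fun h' => h (by rw [h'])
  have : (univ.filter fun w => (G K L).dist w (Sum.inl a) < (G K L).dist w (Sum.inl b)) =
      {Sum.inl a, Sum.inl (b.1, !b.2)} := by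
    ext w
    simp only [mem_filter, mem_univ, true_and, mem_insert, mem_singleton, G_dist hL]
    rcases w with c | s
    · obtain ⟨a1, a2⟩ := a
      obtain ⟨b1, b2⟩ := b
      obtain ⟨c1, c2⟩ := c
      simp only [D, Prod.mk.injEq, Sum.inl.injEq] at *
      by_cases h1 : c1 = a1
      · subst h1
        cases a2 <;> cases b2 <;> cases c2 <;> simp [h]
      · by_cases h2 : c1 = b1
        · subst h2
          cases a2 <;> cases b2 <;> cases c2 <;> simp [h1]
        · simp [h1, h2]
    · simp [D]
  rw [this]
  rw [Finset.card_insert_of_notMem, Finset.card_singleton]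
  simp only [mem_singleton, Sum.inl.injEq]
  intro h'
  exact h (by rw [h'])

theorem closer_join (hL : 0 < L) (a : Fin K × Bool) :
    closer (G K L) (Sum.inl a) (Sum.inr ⟨0, hL⟩) ≤ 1 := by
  unfold closer
  rw [← Finset.card_singleton (Sum.inl a : Vert K L)]
  apply Finset.card_le_card
  intro w hw
  simp only [mem_filter, mem_univ, true_and, mem_singleton, G_dist hL] at *
  rcases w with c | s
  · by_cases h : c = a
    · rw [h]
    · exfalso
      simp only [D, h, if_false] at hw
      split_ifs at hw <;> omega
  · simp only [D] at hw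
    omega

theorem closer_path (hL : 0 < L) (s t : Fin L) (h : t.val < s.val) :
    closer (G K L) (Sum.inr s) (Sum.inr t) ≤ L := by
  unfold closer
  have h2 : (univ.image (fun t : Fin L => (Sum.inr t : Vert K L))).card ≤ L := by
    refine Finset.card_image_le.trans ?_
    simp
  refine le_trans (Finset.card_le_card ?_) h2
  intro w hw
  simp only [mem_filter, mem_univ, true_and, G_dist hL] at hw
  rcases w with c | r
  · exfalso
    simp only [D] at hw
    omega
  · exact Finset.mem_image_of_mem _ (mem_univ r)

/-! ### The difference of the two indices -/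

/-- one summand of the Szeged index -/
noncomputable def F (K L : ℕ) (α : ℝ) (u v : Vert K L) : ℝ := by
  classical
  exact if (G K L).Adj u v then
    ((closer (G K L) u v * closer (G K L) v u : ℕ) : ℝ) ^ α else 0

/-- one summand of the Wiener index -/
noncomputable def W (K L : ℕ) (α : ℝ) (x y : Vert K L) : ℝ := by
  classical
  exact if x ≠ y then (D x y : ℝ) ^ α else 0

theorem F_nonneg (α : ℝ) (u v : Vert K L) : 0 ≤ F K L α u v := by
  unfold F
  split_ifs
  · exact Real.rpow_nonneg (Nat.cast_nonneg _) _
  · exact le_refl _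

theorem W_nonneg (α : ℝ) (u v : Vert K L) : 0 ≤ W K L α u v := by
  unfold W
  split_ifs
  · exact Real.rpow_nonneg (Nat.cast_nonneg _) _
  · exact le_refl _

theorem F_comm (α : ℝ) (u v : Vert K L) : F K L α u v = F K L α v u := by
  unfold F
  rw [mul_comm (closer (G K L) u v)]
  by_cases h : (G K L).Adj u v
  · rw [if_pos h, if_pos h.symm]
  · rw [if_neg h, if_neg fun h' => h h'.symm]

theorem W_comm (α : ℝ) (u v : Vert K L) : W K L α u v = W K L α v u := by
  unfold W
  simp only [D_comm u v, ne_comm (a := u) (b := v)]

/-- the difference of the two indices -/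
noncomputable def h (K L : ℕ) (α : ℝ) : ℝ := szeged (G K L) α - wiener (G K L) α

theorem two_h (hL : 0 < L) (α : ℝ) :
    2 * h K L α = (∑ a : Fin K × Bool, ∑ b : Fin K × Bool,
        (F K L α (Sum.inl a) (Sum.inl b) - W K L α (Sum.inl a) (Sum.inl b)))
      + 2 * (∑ a : Fin K × Bool, ∑ t : Fin L,
        (F K L α (Sum.inl a) (Sum.inr t) - W K L α (Sum.inl a) (Sum.inr t)))
      + ∑ s : Fin L, ∑ t : Fin L,
        (F K L α (Sum.inr s) (Sum.inr t) - W K L α (Sum.inr s) (Sum.inr t)) := by
  have e : 2 * h K L α = ∑ u : Vert K L, ∑ v : Vert K L, (F K L α u v - W K L α u v) := by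
    unfold h szeged wiener F W
    simp only [G_dist hL, Finset.sum_sub_distrib]
    ring
  rw [e, Fintype.sum_sum_type]
  simp only [Fintype.sum_sum_type, Finset.sum_add_distrib]
  have e2 : ∑ s : Fin L, ∑ a : Fin K × Bool,
      (F K L α (Sum.inr s) (Sum.inl a) - W K L α (Sum.inr s) (Sum.inl a)) =
      ∑ a : Fin K × Bool, ∑ t : Fin L,
        (F K L α (Sum.inl a) (Sum.inr t) - W K L α (Sum.inl a) (Sum.inr t)) := by
    rw [Finset.sum_comm]
    apply Finset.sum_congr rfl
    intro a _
    apply Finset.sum_congr rfl
    intro t _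
    rw [F_comm, W_comm]
  rw [e2]
  ring

theorem F_cluster (hL : 0 < L) (α : ℝ) (a b : Fin K × Bool) :
    F K L α (Sum.inl a) (Sum.inl b) = if a.1 = b.1 then 0 else (4 : ℝ) ^ α := by
  unfold F
  by_cases h : a.1 = b.1
  · have : ¬ (G K L).Adj (Sum.inl a) (Sum.inl b) := by
      rw [adj_iff]
      simp only [D, h, if_true]
      split_ifs <;> norm_num
    simp [this, h]
  · have h' : a ≠ b := fun h' => h (by rw [h'])
    have : (G K L).Adj (Sum.inl a) (Sum.inl b) := by
      rw [adj_iff]
      simp [D, h', h]
    rw [if_pos this, closer_cluster hL a b h, closer_cluster hL b a (Ne.symm h), if_neg h]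
    norm_num

theorem W_cluster (α : ℝ) (a b : Fin K × Bool) :
    W K L α (Sum.inl a) (Sum.inl b) =
      if a = b then 0 else if a.1 = b.1 then (2 : ℝ) ^ α else 1 := by
  unfold W
  by_cases h' : a = b
  · simp [h']
  · by_cases h : a.1 = b.1
    · simp [D, h', h]
    · simp [D, h', h]

theorem W_join (α : ℝ) (a : Fin K × Bool) (t : Fin L) :
    W K L α (Sum.inl a) (Sum.inr t) = ((t.val : ℝ) + 1) ^ α := by
  unfold W
  simp [D]

/-! ### The value at `0` -/

theorem h_zero (hK : 0 < K) (hL : 0 < L) : h K L 0 < 0 := by
  have hF : ∀ u v : Vert K L, F K L 0 u v ≤ W K L 0 u v := by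
    intro u v
    unfold F W
    by_cases h : (G K L).Adj u v
    · simp [h, (G K L).ne_of_adj h]
    · simp only [h, if_false, Real.rpow_zero]
      split_ifs <;> norm_num
  have hK' : ∃ a b : Fin K × Bool, a ≠ b ∧ a.1 = b.1 :=
    ⟨(⟨0, hK⟩, true), (⟨0, hK⟩, false), by simp, rfl⟩
  obtain ⟨a, b, hab, hab'⟩ := hK'
  have e : 2 * h K L 0 = ∑ u : Vert K L, ∑ v : Vert K L, (F K L 0 u v - W K L 0 u v) := by
    unfold h szeged wiener F W
    simp only [G_dist hL, Finset.sum_sub_distrib]
    ring
  have e2 : ∑ u : Vert K L, ∑ v : Vert K L, (F K L 0 u v - W K L 0 u v) < 0 := by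
    apply Finset.sum_neg'
    · intro u _
      apply Finset.sum_nonpos
      intro v _
      linarith [hF u v]
    · refine ⟨Sum.inl a, mem_univ _, ?_⟩
      apply Finset.sum_neg'
      · intro v _
        linarith [hF (Sum.inl a) v]
      · refine ⟨Sum.inl b, mem_univ _, ?_⟩
        rw [F_cluster hL, W_cluster, if_pos hab', if_neg hab, if_pos hab']
        simp
  linarith

/-! ### Continuity -/

theorem h_cont (hL : 0 < L) : Continuous (h K L) := by
  unfold h szeged wiener
  apply Continuous.sub
  · apply continuous_const.mul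
    apply continuous_finsetSum
    intro u _
    apply continuous_finsetSum
    intro v _
    by_cases hadj : (G K L).Adj u v
    · simp only [hadj, if_true]
      apply Real.continuous_const_rpow
      have h1 := closer_pos hL u v hadj
      have h2 := closer_pos hL v u hadj.symm
      have h3 : 0 < closer (G K L) u v * closer (G K L) v u := Nat.mul_pos h1 h2
      exact_mod_cast h3.ne'
    · simp only [hadj, if_false]
      exact continuous_const
  · apply continuous_const.mul
    apply continuous_finsetSum
    intro u _
    apply continuous_finsetSum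
    intro v _
    by_cases huv : u = v
    · simp only [huv, ne_eq, not_true_eq_false, if_false]
      exact continuous_const
    · simp only [ne_eq, huv, not_false_eq_true, if_true]
      apply Real.continuous_const_rpow
      rw [G_dist hL]
      have h3 : D u v ≠ 0 := fun h0 => huv ((D_zero u v).1 h0)
      exact_mod_cast h3

/-! ### The value at `1 / 2` -/

theorem sum_fst (c : ℝ) :
    ∑ a : Fin K × Bool, ∑ b : Fin K × Bool, (if a.1 = b.1 then c else 0) = 4 * K * c := by
  have : ∀ a : Fin K × Bool, ∑ b : Fin K × Bool, (if a.1 = b.1 then c else 0) = 2 * c := by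
    intro a
    rw [Fintype.sum_prod_type]
    simp only [Fintype.sum_bool]
    rw [Finset.sum_add_distrib, Finset.sum_ite_eq]
    simp only [mem_univ, if_true]
    ring
  simp only [this, Finset.sum_const, Finset.card_univ, Fintype.card_prod, Fintype.card_fin,
    Fintype.card_bool, nsmul_eq_mul]
  push_cast
  ring

theorem D_path_le (s t : Fin L) : (D (Sum.inr s : Vert K L) (Sum.inr t) : ℝ) ≤ L := by
  have : D (Sum.inr s : Vert K L) (Sum.inr t) ≤ L := by
    simp only [D]; omega
  exact_mod_cast this

theorem h_half (hK : K = 2 ^ 37) (hL : L = 2 ^ 24) : 0 < h K L (1 / 2) := by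
  have hL0 : 0 < L := by rw [hL]; positivity
  have hKr : (K : ℝ) = 2 ^ 37 := by rw [hK]; norm_num
  have hLr : (L : ℝ) = 2 ^ 24 := by rw [hL]; norm_num
  have e := two_h (K := K) hL0 (1 / 2)
  have hsq : (L : ℝ) ^ (1 / 2 : ℝ) = 2 ^ 12 := by
    rw [hLr, ← Real.sqrt_eq_rpow]
    rw [show (2 : ℝ) ^ 24 = (2 ^ 12) ^ 2 by norm_num, Real.sqrt_sq (by positivity)]
  have h4 : (4 : ℝ) ^ (1 / 2 : ℝ) = 2 := by
    rw [← Real.sqrt_eq_rpow, show (4 : ℝ) = 2 ^ 2 by norm_num, Real.sqrt_sq (by norm_num)]
  have h2 : (2 : ℝ) ^ (1 / 2 : ℝ) ≤ 2 := by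
    calc (2 : ℝ) ^ (1 / 2 : ℝ) ≤ (2 : ℝ) ^ (1 : ℝ) :=
          Real.rpow_le_rpow_of_exponent_le (by norm_num) (by norm_num)
      _ = 2 := Real.rpow_one 2
  have hA : 4 * (K : ℝ) ^ 2 - 4 * K * 3 ≤ ∑ a : Fin K × Bool, ∑ b : Fin K × Bool,
      (F K L (1 / 2) (Sum.inl a) (Sum.inl b) - W K L (1 / 2) (Sum.inl a) (Sum.inl b)) := by
    calc 4 * (K : ℝ) ^ 2 - 4 * K * 3
        = ∑ a : Fin K × Bool, ∑ b : Fin K × Bool, ((1 : ℝ) - if a.1 = b.1 then 3 else 0) := by
          simp only [Finset.sum_sub_distrib]
          rw [sum_fst]
          simp only [Finset.sum_const, Finset.card_univ, Fintype.card_prod, Fintype.card_fin,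
            Fintype.card_bool, nsmul_eq_mul]
          push_cast
          ring
      _ ≤ _ := by
          apply Finset.sum_le_sum
          intro a _
          apply Finset.sum_le_sum
          intro b _
          rw [F_cluster hL0, W_cluster, h4]
          by_cases hab : a = b
          · subst hab
            simp only [if_true]
            norm_num
          · by_cases hab' : a.1 = b.1
            · simp only [hab, hab', if_true, if_false]
              linarith
            · simp only [hab, hab', if_false]
              norm_num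
  have hB : -(2 * K * (L * 2 ^ 12) : ℝ) ≤ ∑ a : Fin K × Bool, ∑ t : Fin L,
      (F K L (1 / 2) (Sum.inl a) (Sum.inr t) - W K L (1 / 2) (Sum.inl a) (Sum.inr t)) := by
    calc -(2 * K * (L * 2 ^ 12) : ℝ)
        = ∑ a : Fin K × Bool, ∑ t : Fin L, (-(2 ^ 12) : ℝ) := by
          simp only [Finset.sum_const, Finset.card_univ, Fintype.card_prod, Fintype.card_fin,
            Fintype.card_bool, nsmul_eq_mul]
          push_cast
          ring
      _ ≤ _ := by
          apply Finset.sum_le_sum
          intro a _
          apply Finset.sum_le_sum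
          intro t _
          have h5 := F_nonneg (1 / 2) (Sum.inl a : Vert K L) (Sum.inr t)
          have h6 : ((t.val : ℝ) + 1) ^ (1 / 2 : ℝ) ≤ (L : ℝ) ^ (1 / 2 : ℝ) := by
            apply Real.rpow_le_rpow (by positivity) _ (by norm_num)
            have := t.2
            exact_mod_cast this
          rw [W_join]
          rw [hsq] at h6
          linarith
  have hC : -(L * (L * 2 ^ 12) : ℝ) ≤ ∑ s : Fin L, ∑ t : Fin L,
      (F K L (1 / 2) (Sum.inr s) (Sum.inr t) - W K L (1 / 2) (Sum.inr s) (Sum.inr t)) := by
    calc -(L * (L * 2 ^ 12) : ℝ)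
        = ∑ s : Fin L, ∑ t : Fin L, (-(2 ^ 12) : ℝ) := by
          simp only [Finset.sum_const, Finset.card_univ, Fintype.card_fin, nsmul_eq_mul]
          ring
      _ ≤ _ := by
          apply Finset.sum_le_sum
          intro s _
          apply Finset.sum_le_sum
          intro t _
          have h5 := F_nonneg (1 / 2) (Sum.inr s : Vert K L) (Sum.inr t)
          have h6 : W K L (1 / 2) (Sum.inr s) (Sum.inr t) ≤ 2 ^ 12 := by
            unfold W
            split_ifs
            · rw [← hsq]
              exact Real.rpow_le_rpow (Nat.cast_nonneg _) (D_path_le s t) (by norm_num)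
            · norm_num
          linarith
  have : 0 < 2 * h K L (1 / 2) := by
    rw [e]
    rw [hKr] at hA
    rw [hKr, hLr] at hB
    rw [hLr] at hC
    have : (0 : ℝ) < 4 * (2 ^ 37) ^ 2 - 4 * 2 ^ 37 * 3 - 2 * (2 * 2 ^ 37 * (2 ^ 24 * 2 ^ 12)) -
      2 ^ 24 * (2 ^ 24 * 2 ^ 12) := by norm_num
    linarith
  linarith

/-! ### The value at `3 / 4` -/

theorem pow_three_quarter (n : ℕ) : ((2 : ℝ) ^ (4 * n)) ^ (3 / 4 : ℝ) = 2 ^ (3 * n) := by
  rw [← Real.rpow_natCast, ← Real.rpow_mul (by norm_num), ← Real.rpow_natCast]
  congr 1
  push_cast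
  ring

theorem h_three_quarter (hK : K = 2 ^ 37) (hL : L = 2 ^ 24) : h K L (3 / 4) < 0 := by
  have hL0 : 0 < L := by rw [hL]; positivity
  have hKr : (K : ℝ) = 2 ^ 37 := by rw [hK]; norm_num
  have hLr : (L : ℝ) = 2 ^ 24 := by rw [hL]; norm_num
  have e := two_h (K := K) hL0 (3 / 4)
  have h4 : (4 : ℝ) ^ (3 / 4 : ℝ) ≤ 4 := by
    calc (4 : ℝ) ^ (3 / 4 : ℝ) ≤ (4 : ℝ) ^ (1 : ℝ) :=
          Real.rpow_le_rpow_of_exponent_le (by norm_num) (by norm_num)
      _ = 4 := Real.rpow_one 4
  have hA : ∑ a : Fin K × Bool, ∑ b : Fin K × Bool,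
      (F K L (3 / 4) (Sum.inl a) (Sum.inl b) - W K L (3 / 4) (Sum.inl a) (Sum.inl b)) ≤
      4 * (K : ℝ) ^ 2 * 4 := by
    calc _ ≤ ∑ a : Fin K × Bool, ∑ b : Fin K × Bool, (4 : ℝ) := by
          apply Finset.sum_le_sum
          intro a _
          apply Finset.sum_le_sum
          intro b _
          have h5 := W_nonneg (3 / 4) (Sum.inl a : Vert K L) (Sum.inl b)
          have h6 : F K L (3 / 4) (Sum.inl a) (Sum.inl b) ≤ 4 := by
            rw [F_cluster hL0]
            split_ifs
            · norm_num
            · exact h4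
          linarith
      _ = _ := by
          simp only [Finset.sum_const, Finset.card_univ, Fintype.card_prod, Fintype.card_fin,
            Fintype.card_bool, nsmul_eq_mul]
          push_cast
          ring
  have hB : ∑ a : Fin K × Bool, ∑ t : Fin L,
      (F K L (3 / 4) (Sum.inl a) (Sum.inr t) - W K L (3 / 4) (Sum.inl a) (Sum.inr t)) ≤
      2 * K * (2 ^ 30 - 2 ^ 23 * 2 ^ 17) := by
    calc _ ≤ ∑ a : Fin K × Bool, ((2 : ℝ) ^ 30 - 2 ^ 23 * 2 ^ 17) := by
          apply Finset.sum_le_sum
          intro a _
          rw [Finset.sum_sub_distrib]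
          have h5 : ∑ t : Fin L, F K L (3 / 4) (Sum.inl a) (Sum.inr t) ≤ 2 ^ 30 := by
            rw [Finset.sum_eq_single (⟨0, hL0⟩ : Fin L)]
            · unfold F
              split_ifs
              · rw [← pow_three_quarter 10]
                apply Real.rpow_le_rpow (Nat.cast_nonneg _) _ (by norm_num)
                have h7 := closer_join hL0 a
                have h8 := closer_le (K := K) (L := L) (Sum.inr ⟨0, hL0⟩) (Sum.inl a)
                have h9 : closer (G K L) (Sum.inl a) (Sum.inr ⟨0, hL0⟩) *
                    closer (G K L) (Sum.inr ⟨0, hL0⟩) (Sum.inl a) ≤ 1 * (2 * K + L) :=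
                  Nat.mul_le_mul h7 h8
                have h10 : 1 * (2 * K + L) ≤ 2 ^ (4 * 10) := by
                  rw [hK, hL]; norm_num
                exact_mod_cast h9.trans h10
              · positivity
            · intro t _ ht
              unfold F
              rw [if_neg]
              rw [adj_iff]
              intro h7
              apply ht
              simp only [D] at h7
              apply Fin.ext
              simp only
              omega
            · intro h7
              exact absurd (mem_univ _) h7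
          have h6 : (2 : ℝ) ^ 23 * 2 ^ 17 ≤ ∑ t : Fin L, W K L (3 / 4) (Sum.inl a) (Sum.inr t) := by
            simp only [W_join]
            rw [Fin.sum_univ_eq_sum_range (fun i : ℕ => ((i : ℝ) + 1) ^ (3 / 4 : ℝ)) L]
            have h7 : Finset.Ico (2 ^ 23) L ⊆ Finset.range L := by
              intro i hi
              rw [Finset.mem_Ico] at hi
              exact Finset.mem_range.2 hi.2
            refine le_trans ?_ (Finset.sum_le_sum_of_subset_of_nonneg h7 ?_)
            · have h8 : (2 : ℝ) ^ 23 * 2 ^ 17 = (Finset.Ico (2 ^ 23) L).card • (2 : ℝ) ^ 17 := by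
                rw [Nat.card_Ico, hL, nsmul_eq_mul]
                norm_num
              rw [h8]
              apply Finset.card_nsmul_le_sum
              intro i hi
              rw [Finset.mem_Ico] at hi
              have h9 : (2 : ℝ) ^ 23 ≤ (i : ℝ) + 1 := by
                have : (2 : ℕ) ^ 23 ≤ i + 1 := hi.1.trans (Nat.le_succ i)
                exact_mod_cast this
              have h10 : (2 : ℝ) ^ 17 ≤ ((2 : ℝ) ^ 23) ^ (3 / 4 : ℝ) := by
                rw [← Real.rpow_natCast, ← Real.rpow_natCast, ← Real.rpow_mul (by norm_num)]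
                apply Real.rpow_le_rpow_of_exponent_le (by norm_num)
                norm_num
              exact h10.trans (Real.rpow_le_rpow (by positivity) h9 (by norm_num))
            · intro i _ _
              positivity
          linarith
      _ = _ := by
          simp only [Finset.sum_const, Finset.card_univ, Fintype.card_prod, Fintype.card_fin,
            Fintype.card_bool, nsmul_eq_mul]
          push_cast
          ring
  have hC : ∑ s : Fin L, ∑ t : Fin L,
      (F K L (3 / 4) (Sum.inr s) (Sum.inr t) - W K L (3 / 4) (Sum.inr s) (Sum.inr t)) ≤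
      L * (2 * 2 ^ 48) := by
    calc _ ≤ ∑ s : Fin L, ((2 : ℝ) * 2 ^ 48) := by
          apply Finset.sum_le_sum
          intro s _
          have h5 : ∀ t : Fin L, F K L (3 / 4) (Sum.inr s) (Sum.inr t) -
              W K L (3 / 4) (Sum.inr s) (Sum.inr t) ≤
              (if t.val = s.val + 1 then (2 : ℝ) ^ 48 else 0) +
              (if t.val + 1 = s.val then (2 : ℝ) ^ 48 else 0) := by
            intro t
            have h6 := W_nonneg (3 / 4) (Sum.inr s : Vert K L) (Sum.inr t)
            have h7 : F K L (3 / 4) (Sum.inr s) (Sum.inr t) ≤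
              (if t.val = s.val + 1 then (2 : ℝ) ^ 48 else 0) +
              (if t.val + 1 = s.val then (2 : ℝ) ^ 48 else 0) := by
              by_cases hadj : (G K L).Adj (Sum.inr s) (Sum.inr t)
              · have h8 : F K L (3 / 4) (Sum.inr s) (Sum.inr t) ≤ 2 ^ 48 := by
                  unfold F
                  rw [if_pos hadj, ← pow_three_quarter 16]
                  apply Real.rpow_le_rpow (Nat.cast_nonneg _) _ (by norm_num)
                  rw [adj_iff] at hadj
                  simp only [D] at hadj
                  have h9 : closer (G K L) (Sum.inr s) (Sum.inr t) *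
                      closer (G K L) (Sum.inr t) (Sum.inr s) ≤ (2 * K + L) * L := by
                    rcases lt_or_ge s.val t.val with hst | hst
                    · exact Nat.mul_le_mul (closer_le _ _) (closer_path hL0 t s hst)
                    · rw [mul_comm]
                      exact Nat.mul_le_mul (closer_le _ _) (closer_path hL0 s t (by omega))
                  have h10 : (2 * K + L) * L ≤ 2 ^ (4 * 16) := by
                    rw [hK, hL]; norm_num
                  exact_mod_cast h9.trans h10
                rw [adj_iff] at hadj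
                simp only [D] at hadj
                have h11 : t.val = s.val + 1 ∨ t.val + 1 = s.val := by omega
                rcases h11 with h11 | h11
                · refine h8.trans ?_
                  rw [if_pos h11]
                  exact le_add_of_nonneg_right (by split_ifs <;> positivity)
                · refine h8.trans ?_
                  rw [if_pos h11]
                  exact le_add_of_nonneg_left (by split_ifs <;> positivity)
              · unfold F
                rw [if_neg hadj]
                apply add_nonneg <;> split_ifs <;> positivity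
            linarith
          have h6 : ∑ t : Fin L, (if t.val = s.val + 1 then (2 : ℝ) ^ 48 else 0) ≤ 2 ^ 48 := by
            rw [← Finset.sum_filter, Finset.sum_const, nsmul_eq_mul]
            have : (univ.filter fun t : Fin L => t.val = s.val + 1).card ≤ 1 := by
              apply Finset.card_le_one.2
              intro a ha b hb
              simp only [mem_filter, mem_univ, true_and] at ha hb
              exact Fin.ext (by omega)
            have h7 : ((univ.filter fun t : Fin L => t.val = s.val + 1).card : ℝ) ≤ 1 := by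
              exact_mod_cast this
            nlinarith
          have h7 : ∑ t : Fin L, (if t.val + 1 = s.val then (2 : ℝ) ^ 48 else 0) ≤ 2 ^ 48 := by
            rw [← Finset.sum_filter, Finset.sum_const, nsmul_eq_mul]
            have : (univ.filter fun t : Fin L => t.val + 1 = s.val).card ≤ 1 := by
              apply Finset.card_le_one.2
              intro a ha b hb
              simp only [mem_filter, mem_univ, true_and] at ha hb
              exact Fin.ext (by omega)
            have h7 : ((univ.filter fun t : Fin L => t.val + 1 = s.val).card : ℝ) ≤ 1 := by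
              exact_mod_cast this
            nlinarith
          calc _ ≤ ∑ t : Fin L, ((if t.val = s.val + 1 then (2 : ℝ) ^ 48 else 0) +
              (if t.val + 1 = s.val then (2 : ℝ) ^ 48 else 0)) :=
                Finset.sum_le_sum fun t _ => h5 t
            _ ≤ _ := by
              rw [Finset.sum_add_distrib]
              linarith
      _ = _ := by
          simp only [Finset.sum_const, Finset.card_univ, Fintype.card_fin, nsmul_eq_mul]
  have : 2 * h K L (3 / 4) < 0 := by
    rw [e]
    rw [hKr] at hA hB
    rw [hLr] at hC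
    have : (4 * (2 ^ 37) ^ 2 * 4 + 2 * (2 * 2 ^ 37 * (2 ^ 30 - 2 ^ 23 * 2 ^ 17)) +
      2 ^ 24 * (2 * 2 ^ 48) : ℝ) < 0 := by norm_num
    linarith
  linarith

end Graph

/-- **Answer (negative) to Q1.**  There are a finite connected graph which is not complete and two
different real numbers `α`, `β` for which the variable Szeged index and the variable Wiener index
agree. -/
theorem result : ∃ (V : Type) (_ : Fintype V) (G : SimpleGraph V), G.Connected ∧ G ≠ ⊤ ∧
    ∃ α β : ℝ, α ≠ β ∧ szeged G α = wiener G α ∧ szeged G β = wiener G β := by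
  obtain ⟨K, hK⟩ : ∃ K : ℕ, K = 2 ^ 37 := ⟨_, rfl⟩
  obtain ⟨L, hL⟩ : ∃ L : ℕ, L = 2 ^ 24 := ⟨_, rfl⟩
  have hK0 : 0 < K := by rw [hK]; positivity
  have hL0 : 0 < L := by rw [hL]; positivity
  refine ⟨Vert K L, inferInstance, G K L, G_connected hL0, ?_, ?_⟩
  · intro h
    have h1 : (G K L).Adj (Sum.inl (⟨0, hK0⟩, true)) (Sum.inl (⟨0, hK0⟩, false)) := by
      rw [h, SimpleGraph.top_adj]
      simp
    rw [adj_iff] at h1
    simp [D] at h1
  · have hc : Continuous (h K L) := h_cont hL0
    have h0 := h_zero hK0 hL0
    have h1 := h_half hK hL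
    have h2 := h_three_quarter hK hL
    obtain ⟨α, hα, hα'⟩ := intermediate_value_Ioo (by norm_num : (0 : ℝ) ≤ 1 / 2)
      hc.continuousOn ⟨h0, h1⟩
    obtain ⟨β, hβ, hβ'⟩ := intermediate_value_Ioo' (by norm_num : (1 / 2 : ℝ) ≤ 3 / 4)
      hc.continuousOn ⟨h2, h1⟩
    refine ⟨α, β, (hα.2.trans hβ.1).ne, ?_, ?_⟩
    · exact sub_eq_zero.1 hα'
    · exact sub_eq_zero.1 hβ'

end Pool.Agent.N218.DD6DDE.TwoZeros
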